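import Pool.Agent.N646.SF.All

/-!
# Linear equations in good vectors, for an abstract notion of good vectors with almost cliques

This is `Pool.Agent.N646.SF.equations` (helper646) for an arbitrary notion of good vectors which satisfies
the theorem on almost cliques (`CLe`).
-/

set_option autoImplicit false

namespace Pool.Agent.T63.OP

open Finset Filter Topology
open Pool.Agent.N646.BX

open Classical in
/-- almost cliques in intervals -/
theorem cle_Ico {k : ℕ} {g : (Fin k → ℤ) → Prop} {ρ ε : ℝ} (h : CLe k g ρ ε) :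
    ∃ M n₀ : ℕ, 1 ≤ M ∧ ∀ S : ℕ, n₀ ≤ S → ∃ A : Finset ℤ, A ⊆ Ico 0 (S : ℤ) ∧
      (ρ - ε) * (S : ℝ) ≤ A.card ∧
      (((Fintype.piFinset (fun _ : Fin (k + 1) => A)).filter
        (fun y => Function.Injective y ∧ ¬ (fun z : Fin k → ℤ => g (fun j => M * z j))
          (fun j => y j.succ - y 0))).card : ℝ) ≤ ε * (S : ℝ) ^ (k + 1) := by
  obtain ⟨M, n₀, hM, h⟩ := h
  refine ⟨M, n₀, hM, fun S hS => ?_⟩
  have hMZ : (M : ℤ) ≠ 0 := by exact_mod_cast (by omega : M ≠ 0)
  have hinj : Function.Injective (fun x : ℤ => (M : ℤ) * x) := mul_right_injective₀ hMZ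
  set V : Finset ℤ := (Ico 0 (S : ℤ)).image (fun x => (M : ℤ) * x) with hV
  have hVc : V.card = S := by
    rw [hV, card_image_of_injective _ hinj, Int.card_Ico]
    omega
  obtain ⟨A₀, h1, h2, h3⟩ := h V (by
    intro x hx
    obtain ⟨y, _, rfl⟩ := mem_image.1 hx
    exact dvd_mul_right _ _) (by rw [hVc]; exact hS)
  rw [hVc] at h2 h3
  set A : Finset ℤ := (Ico 0 (S : ℤ)).filter (fun x => (M : ℤ) * x ∈ A₀) with hA
  have hAA : A.image (fun x => (M : ℤ) * x) = A₀ := by
    ext z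
    constructor
    · intro hz
      obtain ⟨x, hx, rfl⟩ := mem_image.1 hz
      exact (mem_filter.1 hx).2
    · intro hz
      obtain ⟨x, hx, rfl⟩ := mem_image.1 (h1 hz)
      exact mem_image.2 ⟨x, mem_filter.2 ⟨hx, hz⟩, rfl⟩
  have hAc : A.card = A₀.card := by
    rw [← hAA]
    exact (card_image_of_injective _ hinj).symm
  refine ⟨A, filter_subset _ _, by rw [hAc]; exact h2, ?_⟩
  refine le_trans ?_ h3
  rw [← Set.ncard_coe_finset, Nat.cast_le]
  have hfin : {y : Fin (k + 1) → ℤ | (∀ i, y i ∈ A₀) ∧ Function.Injective y ∧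
      ¬ g (fun j => y j.succ - y 0)}.Finite := by
    apply (Fintype.piFinset (fun _ : Fin (k + 1) => A₀)).finite_toSet.subset
    intro y hy
    rw [mem_coe, Fintype.mem_piFinset]
    exact hy.1
  refine Set.ncard_le_ncard_of_injOn (fun y i => (M : ℤ) * y i) ?_ ?_ hfin
  · intro y hy
    rw [mem_coe, mem_filter, Fintype.mem_piFinset] at hy
    obtain ⟨g1, g2, g3⟩ := hy
    refine ⟨fun i => (mem_filter.1 (g1 i)).2, fun i i' hii => g2 (hinj hii), fun g4 => g3 ?_⟩
    have e : (fun j : Fin k => (M : ℤ) * (y j.succ - y 0)) =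
        fun j : Fin k => (M : ℤ) * y j.succ - M * y 0 := by
      funext j
      ring
    show g (fun j : Fin k => (M : ℤ) * (y j.succ - y 0))
    rw [e]
    exact g4
  · intro y _ y' _ hyy
    funext i
    exact hinj (congrFun hyy i)

open Classical in
/-- **Linear equations in good vectors.** -/
theorem equations (k p : ℕ) (a : Fin p → ℤ) (ha : ∀ i, a i ≠ 0) (hp : 2 ≤ p)
    (hk : ((k : ℤ) + 1) * (18 - 5 * p) < 18) :
    ∃ ε' : ℝ, 0 < ε' ∧ ∀ g : (Fin k → ℤ) → Prop, CLe k g (5 / 18) ε' →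
      ∃ N B : ℕ, 1 ≤ N ∧ 1 ≤ B ∧ ∃ c : ℝ, 0 < c ∧ ∀ T : ℕ, B ≤ T →
        ∀ v : Fin k → ℤ, (∀ j, (N : ℤ) ∣ v j) → (∀ j, B * |v j| ≤ T) →
          c * (T : ℝ) ^ ((p - 1) * k) ≤
            (((Fintype.piFinset (fun _ : Fin p => Fintype.piFinset (fun _ : Fin k =>
              Ioo (-(T : ℤ)) T))).filter
                (fun h => (∀ i, g (h i)) ∧ ∀ j, ∑ i, a i * h i j = v j)).card : ℝ) := by
  have hk' : ((k : ℝ) + 1) * (1 - min 1 ((p : ℝ) * (5 / 18))) < 1 := by
    rcases le_total 1 ((p : ℝ) * (5 / 18)) with h | h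
    · rw [min_eq_left h]
      norm_num
    · rw [min_eq_right h]
      have : (((((k : ℤ) + 1) * (18 - 5 * p) : ℤ)) : ℝ) < ((18 : ℤ) : ℝ) := by exact_mod_cast hk
      push_cast at this
      nlinarith
  obtain ⟨ε, hε, Q, B₁, hQ, hB₁, c₁, hc₁, h⟩ :=
    Pool.Agent.N646.SF.sfgT k p (5 / 18) a ha hp (by norm_num) (by norm_num) hk'
  refine ⟨ε, hε, fun g hg => ?_⟩
  obtain ⟨M, n₀, hM, hx⟩ := cle_Ico hg
  have hMZ : (0 : ℤ) < M := by exact_mod_cast hM
  have hMR : (0 : ℝ) < M := by exact_mod_cast hM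
  refine ⟨Q * M, 2 * M * (B₁ + n₀ + 1), Nat.mul_pos hQ hM,
    Nat.mul_pos (by omega) (by omega), c₁ / (2 * M) ^ ((p - 1) * k), by positivity, ?_⟩
  intro T hT v hv1 hv2
  set B : ℕ := 2 * M * (B₁ + n₀ + 1) with hB
  have hB2 : 2 * M * B₁ ≤ B := by rw [hB]; exact Nat.mul_le_mul_left _ (by omega)
  have hB3 : M * (B₁ + n₀ + 1) ≤ B := by rw [hB]; exact Nat.mul_le_mul_right _ (by omega)
  set S : ℕ := T / M with hS
  have hS1 : M * S ≤ T := Nat.mul_div_le T M
  have hS2 : T < M * (S + 1) := Nat.lt_mul_div_succ T hM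
  have hS3 : B₁ + n₀ + 1 ≤ S := by
    rw [hS, Nat.le_div_iff_mul_le hM, mul_comm]
    exact hB3.trans hT
  have hS4 : T ≤ 2 * M * S := by nlinarith
  obtain ⟨A, hA1, hA2, hA3⟩ := hx S (by omega)
  have hvM : ∀ j, (M : ℤ) * (v j / M) = v j := fun j =>
    Int.mul_ediv_cancel' (dvd_trans ⟨(Q : ℤ), by push_cast; ring⟩ (hv1 j))
  have hmain := h S (by omega) A hA1 hA2 (fun z => g (fun j => M * z j)) hA3
    (fun j => v j / M) (by
      intro j
      obtain ⟨y, hy⟩ := hv1 j
      refine ⟨y, ?_⟩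
      have h1 := hvM j
      rw [hy] at h1 ⊢
      push_cast at h1 ⊢
      have h2 : (M : ℤ) * ((Q : ℤ) * M * y / M) = M * (Q * y) := by rw [h1]; ring
      exact mul_left_cancel₀ hMZ.ne' h2) (by
      intro j
      have h1 : (B : ℤ) * |v j| ≤ T := hv2 j
      have h2 : |v j| = M * |v j / M| := by
        conv_lhs => rw [← hvM j]
        rw [abs_mul, abs_of_pos hMZ]
      have h3 : ((2 * M * B₁ : ℕ) : ℤ) * |v j| ≤ B * |v j| :=
        mul_le_mul_of_nonneg_right (by exact_mod_cast hB2) (abs_nonneg _)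
      have h4 : (T : ℤ) ≤ 2 * M * S := by exact_mod_cast hS4
      push_cast at h3
      rw [h2] at h3
      have h5 : (2 * (M : ℤ) * M) * (B₁ * |v j / M|) ≤ (2 * M * M) * S := by
        have h6 : (1 : ℤ) ≤ M := hMZ
        have h7 : (2 * (M : ℤ) * M) * (B₁ * |v j / M|) ≤ T := by
          calc (2 * (M : ℤ) * M) * (B₁ * |v j / M|) = 2 * M * B₁ * (M * |v j / M|) := by ring
            _ ≤ B * (M * |v j / M|) := h3
            _ = B * |v j| := by rw [h2]
            _ ≤ T := h1
        have h8 : (2 : ℤ) * M * S ≤ 2 * M * M * S := by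
          have h9 : (0 : ℤ) ≤ 2 * M * S := by positivity
          nlinarith
        linarith
      exact le_of_mul_le_mul_left h5 (by positivity))
  have hTR : (T : ℝ) ≤ 2 * M * S := by exact_mod_cast hS4
  calc c₁ / (2 * M) ^ ((p - 1) * k) * (T : ℝ) ^ ((p - 1) * k)
      ≤ c₁ / (2 * M) ^ ((p - 1) * k) * (2 * M * S) ^ ((p - 1) * k) := by
        apply mul_le_mul_of_nonneg_left _ (by positivity)
        exact pow_le_pow_left₀ (Nat.cast_nonneg _) hTR _
    _ = c₁ * (S : ℝ) ^ ((p - 1) * k) := by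
        rw [mul_pow (2 * (M : ℝ)) (S : ℝ)]
        field_simp
    _ ≤ _ := hmain
    _ ≤ _ := by
        rw [Nat.cast_le]
        apply card_le_card_of_injOn (fun h i j => (M : ℤ) * h i j)
        · intro h hh
          rw [mem_coe, mem_filter, Fintype.mem_piFinset] at hh ⊢
          refine ⟨fun i => ?_, fun i => hh.2.1 i, fun j => ?_⟩
          · rw [Fintype.mem_piFinset]
            intro j
            have h1 := hh.1 i
            rw [Fintype.mem_piFinset] at h1
            have h2 := mem_Ioo.1 (h1 j)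
            have h3 : (M : ℤ) * S ≤ T := by exact_mod_cast hS1
            rw [mem_Ioo]
            constructor
            · have : (M : ℤ) * (-(S : ℤ)) < M * h i j := mul_lt_mul_of_pos_left h2.1 hMZ
              linarith
            · have : (M : ℤ) * h i j < M * S := mul_lt_mul_of_pos_left h2.2 hMZ
              linarith
          · show ∑ i, a i * ((M : ℤ) * h i j) = v j
            have h1 : ∀ i, a i * ((M : ℤ) * h i j) = M * (a i * h i j) := fun i => by ring
            rw [sum_congr rfl (fun i _ => h1 i), ← mul_sum, hh.2.2 j]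
            exact hvM j
        · intro h _ h' _ hhh
          funext i j
          have h2 : (M : ℤ) * h i j = M * h' i j := congrFun (congrFun hhh i) j
          exact mul_left_cancel₀ hMZ.ne' h2

end Pool.Agent.T63.OP
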