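import Pool.Agent.T63.OP.Tim

/-!
# Prime patterns in the orbits of affine maps along narrow progressions of starting values: definitions
-/

set_option autoImplicit false

namespace Pool.Agent.T63.OP

open Finset Filter

/-- the affine map `z ↦ a z + b`; for `a = 2`, `b = -1` the map of the Cunningham chains of the second
kind -/
def S (a : ℕ) (b : ℤ) (z : ℤ) : ℤ := a * z + b

/-- Among the iterates `S^{t_i}(m)`, `i = 0, ..., k`, exactly those with `i ∈ J` are prime; no `S^u(m)` is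
prime at a time `u ≤ R` not divisible by `q`; and `m` is not `S^l(p)` for a prime `p` and `0 < l < q`. -/
def Pattern (a : ℕ) (b : ℤ) (q R : ℕ) {k : ℕ} (t : Fin (k + 1) → ℕ) (J : Finset (Fin (k + 1)))
    (m : ℕ) : Prop :=
  (∀ i, ((S a b)^[t i] m).toNat.Prime ↔ i ∈ J) ∧
    (∀ u ≤ R, ¬ q ∣ u → ¬ ((S a b)^[u] m).toNat.Prime) ∧
    ∀ l, 0 < l → l < q → ∀ p : ℕ, p.Prime → (S a b)^[l] p ≠ m

/-- For every length `l` and every bound `R` there is `C` such that for arbitrarily large `x` every pattern `J`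
at the times `t_i = h_i - min h` (`times h`) has a difference `1 ≤ D ≤ (log x)^C` for which at least
`x / (log x)^C` of the `1 ≤ m ≤ x` are such that the pattern `J` occurs at all the starting values
`m, m + D, ..., m + (l - 1) D`. -/
def Good (a : ℕ) (b : ℤ) (q : ℕ) {k : ℕ} (h : Fin k → ℤ) : Prop :=
  ∀ l R : ℕ, ∃ C : ℕ, ∃ᶠ x : ℕ in atTop, ∀ J : Finset (Fin (k + 1)), ∃ D : ℕ, 1 ≤ D ∧
    (D : ℝ) ≤ (Real.log x) ^ C ∧ (x : ℝ) / (Real.log x) ^ C ≤
      ({m : ℕ | 1 ≤ m ∧ m ≤ x ∧ ∀ j < l, Pattern a b q R (times h) J (m + j * D)}.ncard : ℝ)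

theorem iter_eq (a : ℕ) (b : ℤ) (t : ℕ) (x : ℤ) : (S a b)^[t] x = Pool.Agent.N694.OB.va a b t x :=
  Pool.Agent.N694.OB.iter a b t x

theorem pattern_iff {a : ℕ} {b : ℤ} {q R k : ℕ} {t : Fin (k + 1) → ℕ} {J : Finset (Fin (k + 1))} {m : ℕ} :
    Pattern a b q R t J m ↔ Pr a b q R t J m := by
  unfold Pattern Pr
  simp only [iter_eq]

theorem good_of {a : ℕ} {b : ℤ} {q k : ℕ} {h : Fin k → ℤ} (hg : GoodO a b q h) : Good a b q h := by
  classical
  intro l R
  obtain ⟨C, hC⟩ := hg l R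
  refine ⟨C, hC.mono fun x hx J => ?_⟩
  obtain ⟨D, h1, h2, h3⟩ := hx J
  refine ⟨D, h1, h2, h3.trans (le_of_eq ?_)⟩
  unfold cp
  rw [← Set.ncard_coe_finset]
  congr 2
  ext m
  simp only [mem_coe, mem_filter, mem_Icc, Set.mem_ofPred_eq, and_assoc, pattern_iff]

end Pool.Agent.T63.OP
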