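import Pool.Agent.N694.NB.Nar
import Pool.Agent.N694.OB.Cle

/-!
# All patterns of primes in the orbits of an affine map along narrow progressions of starting values

The theorem on almost cliques for the times, in the orbits of `S z = a z + b`, after
`Pool.Agent.N694.NB.Nar` (translates, narrow progressions) and `Pool.Agent.N694.OB.Cle` (times, single
starting values) of helper694.
-/

set_option autoImplicit false

namespace Pool.Agent.T63.OP

open Finset Filter Topology
open Pool.Agent.N646.AC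
open Pool.Agent.N646.BX
open Pool.Agent.Y827.GS
open Pool.Agent.N694.OB

/-- the least of `0` and the `h j` -/
def low {k : ℕ} (h : Fin k → ℤ) : ℤ :=
  univ.inf' ⟨0, mem_univ _⟩ (Fin.cons 0 h : Fin (k + 1) → ℤ)

/-- the times `0, h_1, …, h_k`, shifted so that the least is `0` -/
def times {k : ℕ} (h : Fin k → ℤ) (i : Fin (k + 1)) : ℕ :=
  ((Fin.cons 0 h : Fin (k + 1) → ℤ) i - low h).toNat

/-- The values of the orbit of `m` at the times `d i` are prime exactly for `i ∈ J`, all values at the times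
`u ≤ R` not divisible by `q` are not prime, and `m` is not a value of the orbit of a prime number at a
time `l` with `0 < l < q`. -/
def Pr (a : ℕ) (b : ℤ) (q R : ℕ) {k : ℕ} (d : Fin (k + 1) → ℕ) (J : Finset (Fin (k + 1)))
    (m : ℕ) : Prop :=
  (∀ i, (va a b (d i) m).toNat.Prime ↔ i ∈ J) ∧
    (∀ u ≤ R, ¬ q ∣ u → ¬ (va a b u m).toNat.Prime) ∧
    ∀ l, 0 < l → l < q → ∀ p : ℕ, p.Prime → va a b l p ≠ m

open Classical in
/-- the number of the `1 ≤ m ≤ x` with this property at `m, m + D, ..., m + (l - 1) D` -/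
noncomputable def cp (a : ℕ) (b : ℤ) (q R : ℕ) {k : ℕ} (d : Fin (k + 1) → ℕ)
    (J : Finset (Fin (k + 1))) (l D x : ℕ) : ℕ :=
  ((Icc 1 x).filter (fun m : ℕ => ∀ j < l, Pr a b q R d J (m + j * D))).card

/-- all patterns at the times along narrow progressions of starting values -/
def GoodO (a : ℕ) (b : ℤ) (q : ℕ) {k : ℕ} (h : Fin k → ℤ) : Prop :=
  ∀ l R : ℕ, ∃ C : ℕ, ∃ᶠ x : ℕ in atTop, ∀ J : Finset (Fin (k + 1)), ∃ D : ℕ, 1 ≤ D ∧
    (D : ℝ) ≤ (Real.log x) ^ C ∧
    (x : ℝ) / (Real.log x) ^ C ≤ (cp a b q R (times h) J l D x : ℝ)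

open Classical in
/-- the forms of the other times up to `s` -/
noncomputable def UO (a : ℕ) (b : ℤ) (E : Finset ℕ) (s : ℕ) : Finset (ℤ × ℤ) :=
  ((range (s + 1)).filter (fun v => v ∉ E)).image (fo a b)

theorem UO_mono (a : ℕ) (b : ℤ) (E : Finset ℕ) : Monotone (UO a b E) := by
  classical
  intro s s' hss
  unfold UO
  apply image_subset_image
  apply filter_subset_filter
  intro v hv
  rw [mem_range] at hv ⊢
  omega

theorem fo_val (a : ℕ) (b : ℤ) (v : ℕ) (n : ℤ) : (fo a b v).1 * n + (fo a b v).2 = va a b v n := rfl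

theorem times_eq {k : ℕ} (y : Fin (k + 1) → ℤ) (t : Fin (k + 1) → ℕ) (s : ℤ)
    (ht : ∀ i, ((t i : ℕ) : ℤ) = y i + s) (μ : ℕ) (hμ : ∀ i, μ ≤ t i) (hμ' : ∃ i, t i = μ)
    (i : Fin (k + 1)) : μ + times (fun j : Fin k => y j.succ - y 0) i = t i := by
  have hc : ∀ i, (Fin.cons 0 (fun j : Fin k => y j.succ - y 0) : Fin (k + 1) → ℤ) i = y i - y 0 := by
    intro i
    rcases Fin.eq_zero_or_eq_succ i with h0 | ⟨j', hj'⟩
    · subst h0
      rw [Fin.cons_zero]
      ring
    · subst hj'
      rw [Fin.cons_succ]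
  have hlow : low (fun j : Fin k => y j.succ - y 0) = μ - s - y 0 := by
    unfold low
    apply le_antisymm
    · obtain ⟨i₀, hi₀⟩ := hμ'
      refine (inf'_le _ (mem_univ i₀)).trans ?_
      rw [hc i₀]
      have := ht i₀
      rw [hi₀] at this
      linarith
    · apply le_inf'
      intro i _
      rw [hc i]
      have h1 := ht i
      have h2 : (μ : ℤ) ≤ t i := by exact_mod_cast hμ i
      linarith
  unfold times
  rw [hc i, hlow]
  have h1 := ht i
  have h2 : (μ : ℤ) ≤ t i := by exact_mod_cast hμ i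
  omega

/-- from the forms to the starting values -/
theorem transO {a : ℕ} {b : ℤ} (ha : 2 ≤ a) {q : ℕ} {k : ℕ} {E : Finset ℕ}
    (hEq : ∀ v ∈ E, q ∣ v) {t : Fin (k + 1) → ℕ} (ht : ∀ i, t i ∈ E) (hinj : Function.Injective t)
    {μ : ℕ} (hμq : q ≤ μ) (hμ : q ∣ μ) {d : Fin (k + 1) → ℕ} (hd : ∀ i, μ + d i = t i)
    {s C N l R : ℕ} (hs : l + R + μ ≤ s)
    (h : Pool.Agent.Y827.HN.AllP (UO a b E s) s C N (univ.image (fun i => fo a b (t i))))
    (J : Finset (Fin (k + 1))) : ∃ D : ℕ, 1 ≤ D ∧ (D : ℝ) ≤ (Real.log N) ^ C ∧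
      (N : ℝ) / (Real.log N) ^ C ≤ (cp a b q R d J l (a ^ μ * D)
        (a ^ μ * N + (b * geo a μ).natAbs) : ℝ) + ((b * geo a μ).natAbs : ℕ) := by
  classical
  obtain ⟨D, hD1, hD2, hD3⟩ := h (J.image (fun i => fo a b (t i))) (by
    intro f hf
    obtain ⟨i, _, rfl⟩ := mem_image.1 hf
    exact mem_image.2 ⟨i, mem_univ _, rfl⟩)
  refine ⟨D, hD1, hD2, hD3.trans ?_⟩
  set g : ℤ := b * geo a μ with hg
  set B : ℕ := g.natAbs with hB
  set P : ℕ := a ^ μ with hP
  have hP1 : 1 ≤ P := Nat.one_le_pow _ _ (by omega)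
  have key : Pool.Agent.Y827.HN.cntX (J.image (fun i => fo a b (t i)))
      ((univ.image (fun i => fo a b (t i)) \ J.image (fun i => fo a b (t i))) ∪
        UO a b E s) s D N ≤ cp a b q R d J l (P * D) (P * N + B) + B := by
    unfold Pool.Agent.Y827.HN.cntX cp
    set X := (Icc (s + 1) N).filter (fun n : ℕ => ∀ j < s,
      (∀ f ∈ J.image (fun i => fo a b (t i)), (f.1 * ((n + j * D : ℕ) : ℤ) + f.2).toNat.Prime) ∧
      ∀ f ∈ (univ.image (fun i => fo a b (t i)) \ J.image (fun i => fo a b (t i))) ∪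
        UO a b E s, ¬ (f.1 * ((n + j * D : ℕ) : ℤ) + f.2).toNat.Prime) with hX
    have h4 : X ⊆ (Icc 1 B) ∪ (X.filter (fun n => B < n)) := by
      intro n hn
      rw [mem_union, mem_Icc, mem_filter]
      by_cases hnB : n ≤ B
      · refine Or.inl ⟨?_, hnB⟩
        have := (mem_Icc.1 (mem_filter.1 hn).1).1
        omega
      · exact Or.inr ⟨hn, by omega⟩
    have hgB : -(B : ℤ) ≤ g ∧ g ≤ B := by omega
    have hpos : ∀ n : ℕ, B < n → 1 ≤ (P : ℤ) * n + g := by
      intro n hn
      have hPn : (n : ℤ) ≤ (P : ℤ) * n := by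
        have : n ≤ P * n := by nlinarith
        exact_mod_cast this
      have : (B : ℤ) + 1 ≤ n := by exact_mod_cast hn
      linarith [hgB.1]
    have h5 : (X.filter (fun n => B < n)).card ≤ ((Icc 1 (P * N + B)).filter (fun m : ℕ => ∀ j < l,
        Pr a b q R d J (m + j * (P * D)))).card := by
      apply card_le_card_of_injOn (fun n : ℕ => ((P : ℤ) * n + g).toNat)
      · intro n hn
        rw [mem_coe, mem_filter, hX, mem_filter, mem_Icc] at hn
        rw [mem_coe, mem_filter, mem_Icc]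
        obtain ⟨⟨⟨hn1, hn2⟩, hn3⟩, hnB⟩ := hn
        have hp1 := hpos n hnB
        have hcast : ((((P : ℤ) * n + g).toNat : ℕ) : ℤ) = (P : ℤ) * n + g :=
          Int.toNat_of_nonneg (by omega)
        refine ⟨⟨by show 1 ≤ ((P : ℤ) * n + g).toNat; omega, ?_⟩, fun j hj => ?_⟩
        · show ((P : ℤ) * n + g).toNat ≤ P * N + B
          have h6 : (P : ℤ) * n ≤ P * N := mul_le_mul_of_nonneg_left (by exact_mod_cast hn2)
            (Int.natCast_nonneg _)
          have h7 : (P : ℤ) * n + g ≤ ((P * N + B : ℕ) : ℤ) := by push_cast; linarith [hgB.2]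
          omega
        · have hjs : j < s := by omega
          obtain ⟨h6, h7⟩ := hn3 j hjs
          set w : ℕ := n + j * D with hw
          have hm : ((((((P : ℤ) * n + g).toNat + j * (P * D) : ℕ)) : ℕ) : ℤ) = va a b μ w := by
            push_cast
            rw [hcast, hw, hg, hP]
            unfold va
            push_cast
            ring
          have hva : ∀ v : ℕ, va a b v ((((((P : ℤ) * n + g).toNat + j * (P * D) : ℕ)) : ℕ) : ℤ) =
              va a b (μ + v) w := by
            intro v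
            rw [hm, va_comp]
          have hcomp : ∀ v : ℕ, v ≤ s → v ∉ E → ¬ (va a b v w).toNat.Prime := by
            intro v hv hvE
            have h8 := h7 (fo a b v) (mem_union_right _ (by
              unfold UO
              rw [mem_image]
              exact ⟨v, mem_filter.2 ⟨mem_range.2 (by omega), hvE⟩, rfl⟩))
            rwa [fo_val] at h8
          refine ⟨fun i => ?_, fun u hu hqu => ?_, fun l' hl0 hlq p hp heq => ?_⟩
          · rw [hva, hd i]
            constructor
            · intro hpr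
              by_contra hiJ
              refine h7 (fo a b (t i)) (mem_union_left _ ?_) hpr
              rw [Finset.mem_sdiff]
              refine ⟨mem_image.2 ⟨i, mem_univ _, rfl⟩, fun hmem => hiJ ?_⟩
              obtain ⟨i', hi', heq⟩ := mem_image.1 hmem
              have h9 : i' = i := hinj (fo_inj ha heq)
              rwa [h9] at hi'
            · intro hiJ
              exact h6 (fo a b (t i)) (mem_image.2 ⟨i, hiJ, rfl⟩)
          · rw [hva]
            refine hcomp _ (by omega) fun hmem => hqu ?_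
            exact (Nat.dvd_add_right hμ).1 (hEq _ hmem)
          · rw [hm] at heq
            have h8 : μ = (μ - l') + l' := by omega
            rw [h8, va_comp] at heq
            have h10 := va_inj ha l' heq
            have h11 := hcomp (μ - l') (by omega) (fun hmem => by
              have h12 : q ∣ l' := by
                have h13 : l' = μ - (μ - l') := by omega
                rw [h13]
                exact Nat.dvd_sub hμ (hEq _ hmem)
              have := Nat.le_of_dvd hl0 h12
              omega)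
            rw [← h10] at h11
            exact h11 (by simpa using hp)
      · intro n hn n' hn' hnn
        rw [mem_coe, mem_filter] at hn hn'
        have h6 : ((P : ℤ) * n + g).toNat = ((P : ℤ) * n' + g).toNat := hnn
        have h8 := hpos n hn.2
        have h9 := hpos n' hn'.2
        have h10 : (P : ℤ) * n + g = (P : ℤ) * n' + g := by omega
        have h11 : (P : ℤ) * n = (P : ℤ) * n' := by linarith
        have h12 : P * n = P * n' := by exact_mod_cast h11
        exact Nat.eq_of_mul_eq_mul_left (by omega) h12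
    have h6 := (card_le_card h4).trans (card_union_le _ _)
    rw [Nat.card_Icc] at h6
    have h7 : B + 1 - 1 = B := by omega
    rw [h7] at h6
    refine h6.trans ?_
    rw [add_comm]
    exact Nat.add_le_add_right h5 B
  exact_mod_cast key

/-- **Almost cliques of times.** -/
theorem cleT (k : ℕ) (ε : ℝ) (hε : 0 < ε) (a : ℕ) (b : ℤ) (ha : 2 ≤ a) (hab : IsCoprime (a : ℤ) b)
    (q : ℕ) (hq : 1 ≤ q) : CLe k (GoodO a b q) (5 / 18) ε := by
  classical
  obtain ⟨z, n₀, h⟩ := Pool.Agent.N694.NB.clqF k ε hε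
  refine ⟨(a - 1) * q, n₀, Nat.mul_pos (by omega) hq, ?_⟩
  intro V hV hn
  set M₀ : ℕ := (a - 1) * q with hM₀
  have hM₀1 : 1 ≤ M₀ := Nat.mul_pos (by omega) hq
  set B : ℕ := ∑ x ∈ V, x.natAbs with hB
  have hBx : ∀ x ∈ V, x.natAbs ≤ B := fun x hx => single_le_sum (f := fun x : ℤ => x.natAbs)
    (fun _ _ => Nat.zero_le _) hx
  set s : ℤ := (M₀ : ℤ) * (B + 1) with hs
  have hpos : ∀ x ∈ V, (M₀ : ℤ) ≤ x + s ∧ x + s ≤ B + s := by
    intro x hx
    have h1 := hBx x hx
    have h2 : (x.natAbs : ℤ) ≤ B := by exact_mod_cast h1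
    have h3 : (1 : ℤ) ≤ (M₀ : ℤ) := by exact_mod_cast hM₀1
    have h4 : (M₀ : ℤ) + B ≤ s := by
      rw [hs]
      nlinarith [Int.natCast_nonneg B]
    have h5 : -(x.natAbs : ℤ) ≤ x := by omega
    have h6 : x ≤ (x.natAbs : ℤ) := by omega
    constructor <;> linarith
  have hM₀Z : (0 : ℤ) ≤ M₀ := Int.natCast_nonneg _
  set τ : ℤ → ℕ := fun x => (x + s).toNat with hτ
  have hτx : ∀ x ∈ V, ((τ x : ℕ) : ℤ) = x + s := fun x hx =>
    Int.toNat_of_nonneg (hM₀Z.trans (hpos x hx).1)
  have hτM : ∀ x ∈ V, M₀ ∣ τ x := by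
    intro x hx
    have h4 : (M₀ : ℤ) ∣ x + s := dvd_add (hV x hx) (dvd_mul_right _ _)
    rw [← hτx x hx] at h4
    exact Int.natCast_dvd_natCast.1 h4
  have hqM : q ∣ M₀ := Dvd.intro_left _ rfl
  set E : Finset ℕ := V.image τ with hE
  have hEq : ∀ v ∈ E, q ∣ v := by
    intro v hv
    obtain ⟨x, hx, rfl⟩ := mem_image.1 hv
    exact hqM.trans (hτM x hx)
  set F : ℤ → ℤ × ℤ := fun x => fo a b (τ x) with hF
  have hinj : Set.InjOn F (V : Set ℤ) := by
    intro x hx y hy hxy
    have h1 : τ x = τ y := fo_inj ha hxy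
    have h2 := hτx x hx
    have h3 := hτx y hy
    rw [h1] at h2
    linarith
  set V' : Finset (ℤ × ℤ) := V.image F with hV'
  have hVc : V'.card = V.card := card_image_of_injOn hinj
  obtain ⟨A, G, hAV, hAc, hAe, hG⟩ := h V' (by
    intro f hf
    obtain ⟨x, hx, rfl⟩ := mem_image.1 hf
    exact ⟨fo_pos ha _, fo_cop hab _⟩) (by
    intro p _ hp
    obtain ⟨r, hr⟩ := fo_adm ha hab hp
    refine ⟨r, fun f hf hd => ?_⟩
    obtain ⟨x, hx, rfl⟩ := mem_image.1 hf
    exact hr (τ x) ((Dvd.intro _ rfl).trans (hτM x hx)) hd) (by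
    rw [hVc]; exact hn) (UO a b E) (UO_mono a b E) (by
    intro s' u hu
    unfold UO at hu
    obtain ⟨v, hv, rfl⟩ := mem_image.1 hu
    obtain ⟨-, hv2⟩ := mem_filter.1 hv
    refine ⟨fo_pos ha _, fo_cop hab _, fun hmem => hv2 ?_⟩
    obtain ⟨x, hx, heq⟩ := mem_image.1 hmem
    rw [← fo_inj ha heq]
    exact mem_image_of_mem τ hx)
  set A' : Finset ℤ := V.filter (fun x => F x ∈ A) with hA'
  have hA'V : A' ⊆ V := filter_subset _ _
  have hA'A : A'.image F = A := by
    ext f
    constructor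
    · intro hf
      obtain ⟨x, hx, rfl⟩ := mem_image.1 hf
      exact (mem_filter.1 hx).2
    · intro hf
      obtain ⟨x, hx, rfl⟩ := mem_image.1 (hAV hf)
      exact mem_image.2 ⟨x, mem_filter.2 ⟨hx, hf⟩, rfl⟩
  have hA'c : A'.card = A.card := by
    rw [← hA'A]
    exact (card_image_of_injOn (hinj.mono (by exact_mod_cast hA'V))).symm
  refine ⟨A', hA'V, ?_, ?_⟩
  · rw [hA'c, ← hVc]
    exact hAc
  · have h5 : Set.ncard {y : Fin (k + 1) → ℤ | (∀ i, y i ∈ A') ∧
        Function.Injective y ∧ ¬ GoodO a b q (fun j => y j.succ - y 0)} ≤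
        (exc A (fun f => f ∈ G)).card := by
      rw [← Set.ncard_coe_finset]
      refine Set.ncard_le_ncard_of_injOn (fun y i => F (y i)) ?_ ?_ (Set.toFinite _)
      · rintro y ⟨hy1, hy2, hy3⟩
        rw [mem_coe, mem_exc]
        refine ⟨fun i => (mem_filter.1 (hy1 i)).2, fun i i' hii => hy2 (hinj (hA'V (hy1 i))
          (hA'V (hy1 i')) hii), fun hyG => hy3 ?_⟩
        intro l R
        obtain ⟨i₀, -, hi₀⟩ := exists_min_image univ (fun i => τ (y i)) ⟨0, mem_univ _⟩
        set μ : ℕ := τ (y i₀) with hμ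
        obtain ⟨C, hC⟩ := hG (l + R + μ)
        set Bg : ℕ := (b * geo a μ).natAbs with hBg
        refine ⟨C + 1, ?_⟩
        have hP1 : 1 ≤ a ^ μ := Nat.one_le_pow _ _ (by omega)
        have htend : Tendsto (fun N : ℕ => a ^ μ * N + Bg) atTop atTop := by
          refine tendsto_atTop_mono (fun N => ?_) tendsto_id
          show N ≤ a ^ μ * N + Bg
          nlinarith
        have hlog : Tendsto (fun N : ℕ => Real.log (N : ℝ)) atTop atTop :=
          Real.tendsto_log_atTop.comp tendsto_natCast_atTop_atTop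
        refine htend.frequently (((hC.and_eventually (growthA (a ^ μ) Bg C)).and_eventually
          ((hlog.eventually_ge_atTop ((a ^ μ : ℕ) : ℝ)).and (eventually_ge_atTop 3))).mono ?_)
        rintro N ⟨⟨hN, hgr⟩, hNl, hN3⟩ J
        have hqμ : q ≤ μ := by
          have h6 := (hpos _ (hA'V (hy1 i₀))).1
          have h7 := hτx _ (hA'V (hy1 i₀))
          have h8 : q ≤ M₀ := Nat.le_of_dvd hM₀1 hqM
          have h9 : M₀ ≤ μ := by rw [hμ]; omega
          exact h8.trans h9
        obtain ⟨d, hd1, hd2, hd3⟩ := transO ha hEq (t := fun i => τ (y i))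
          (fun i => mem_image_of_mem τ (hA'V (hy1 i)))
          (fun i i' hii => hy2 (hinj (hA'V (hy1 i)) (hA'V (hy1 i')) (by
            show fo a b (τ (y i)) = fo a b (τ (y i'))
            have h6 : τ (y i) = τ (y i') := hii
            rw [h6]))) hqμ (hqM.trans (hτM _ (hA'V (hy1 i₀))))
          (d := times (fun j : Fin k => y j.succ - y 0))
          (times_eq y (fun i => τ (y i)) s (fun i => hτx _ (hA'V (hy1 i))) μ
            (fun i => hi₀ i (mem_univ _)) ⟨i₀, rfl⟩)
          (l := l) (R := R) le_rfl (hN _ hyG) J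
        have hNN : N ≤ a ^ μ * N + Bg := by nlinarith
        have hN0 : (0 : ℝ) < N := by exact_mod_cast (by omega : 0 < N)
        have hmono : Real.log N ≤ Real.log ((a ^ μ * N + Bg : ℕ) : ℝ) :=
          Real.log_le_log hN0 (by exact_mod_cast hNN)
        have hl0 : (0 : ℝ) ≤ Real.log N := Real.log_natCast_nonneg N
        refine ⟨a ^ μ * d, Nat.mul_pos (by omega) (by omega), ?_, ?_⟩
        · calc ((a ^ μ * d : ℕ) : ℝ) = ((a ^ μ : ℕ) : ℝ) * d := by push_cast; ring
            _ ≤ Real.log N * (Real.log N) ^ C := mul_le_mul hNl hd2 (Nat.cast_nonneg _) hl0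
            _ = (Real.log N) ^ (C + 1) := by ring
            _ ≤ (Real.log ((a ^ μ * N + Bg : ℕ) : ℝ)) ^ (C + 1) := pow_le_pow_left₀ hl0 hmono _
        · refine hgr.trans ?_
          linarith
      · intro y hy y' hy' hyy
        funext i
        exact hinj (hA'V (hy.1 i)) (hA'V (hy'.1 i)) (congrFun hyy i)
    calc (Set.ncard {y : Fin (k + 1) → ℤ | (∀ i, y i ∈ A') ∧
        Function.Injective y ∧ ¬ GoodO a b q (fun j => y j.succ - y 0)} : ℝ) ≤
        ((exc A (fun f => f ∈ G)).card : ℝ) := by exact_mod_cast h5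
      _ ≤ ε * (V'.card : ℝ) ^ (k + 1) := hAe
      _ = ε * (V.card : ℝ) ^ (k + 1) := by rw [hVc]

end Pool.Agent.T63.OP
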